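import Pool.Agent.X84.Tor.Defs
import Pool.Agent.X84.Fm.Par

/-!
# Torus actions and diffeomorphisms which do not decrease a function
-/

open scoped Topology ContDiff Manifold
open Set Filter

set_option autoImplicit false
set_option linter.unusedSectionVars false

noncomputable section

namespace Pool.Agent.X84.Tor

open Pool.Agent.H718R2.G Pool.Agent.Y318.MN Pool.Agent.X84.Fm.Defs Pool.Agent.X84.Fl
open Pool.Agent.TH80.OMS Pool.Agent.Y504.CO Pool.Agent.W564.SC
open Pool.Agent.Helper186 Pool.Agent.H826R2.Wein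

universe u

variable {n : ℕ} {N : Type u} [TopologicalSpace N] [ChartedSpace (V n) N] [IsManifold (𝓡 n) ∞ N]

section approx

variable {k : ℕ} {ρ : (Fin k → ℝ) → N → N} (hρ : TorusAction (V n) k ρ)

include hρ

theorem act_neg (t : Fin k → ℝ) (x : N) : ρ (-t) (ρ t x) = x := by
  rw [← hρ.2.2.1, neg_add_cancel, hρ.2.1]

theorem act_neg' (t : Fin k → ℝ) (x : N) : ρ t (ρ (-t) x) = x := by
  rw [← hρ.2.2.1, add_neg_cancel, hρ.2.1]

/-- the kernel -/
def ker : AddSubgroup (Fin k → ℝ) where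
  carrier := {v | ∀ x, ρ v x = x}
  zero_mem' := hρ.2.1
  add_mem' {a b} ha hb x := by
    rw [hρ.2.2.1, hb, ha]
  neg_mem' {a} ha x := by
    have := act_neg hρ a x
    rwa [ha] at this

theorem int_mem (z : Fin k → ℤ) (v : Fin k → ℝ) (hv : ∀ i, v i = z i) : v ∈ ker hρ := by
  have e : v = ∑ i, (z i) • (Pi.single i (1 : ℝ) : Fin k → ℝ) := by
    ext j
    simp [hv, Finset.sum_apply, Pi.single_apply]
  rw [e]
  have h1 : ∀ i, (Pi.single i (1 : ℝ) : Fin k → ℝ) ∈ ker hρ := fun i => hρ.2.2.2 i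
  exact AddSubgroup.sum_mem _ fun i _ => AddSubgroup.zsmul_mem _ (h1 i) _

/-- rational approximation -/
theorem exists_rational (t : Fin k → ℝ) {κ : ℝ} (hκ : 0 < κ) :
    ∃ (s : Fin k → ℝ) (q : ℕ), ‖s‖ < κ ∧ 1 ≤ q ∧ (q : ℝ) • (t + s) ∈ ker hρ := by
  obtain ⟨q, hq⟩ := exists_nat_gt (1 / κ)
  have hq0 : (0 : ℝ) < q := lt_trans (by positivity) hq
  have hq1 : 1 ≤ q := by exact_mod_cast (Nat.pos_of_ne_zero (by rintro rfl; simp at hq0))
  let s : Fin k → ℝ := fun i => (round (q * t i) : ℝ) / q - t i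
  have hs : ∀ i, s i = (round (q * t i) : ℝ) / q - t i := fun i => rfl
  refine ⟨s, q, ?_, hq1, ?_⟩
  · have h1 : ∀ i, ‖s i‖ ≤ 1 / q := by
      intro i
      rw [hs, Real.norm_eq_abs]
      have e : (round (q * t i) : ℝ) / q - t i = ((round (q * t i) : ℝ) - q * t i) / q := by
        field_simp
      rw [e, abs_div, abs_of_pos hq0, abs_sub_comm]
      gcongr
      exact (abs_sub_round _).trans (by norm_num)
    have h3 : 1 / (q : ℝ) < κ := by
      rw [div_lt_iff₀ hq0]
      have := (div_lt_iff₀ hκ).1 hq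
      linarith
    exact (pi_norm_le_iff_of_nonneg (by positivity)).2 h1 |>.trans_lt h3
  · refine int_mem hρ (fun i => round (q * t i)) _ fun i => ?_
    have e1 : ((q : ℝ) • (t + s)) i = q * (t i + s i) := rfl
    rw [e1, hs]
    field_simp
    ring

/-- the action as diffeomorphisms -/
def dif (r : ℕ∞) (s : Fin k → ℝ) : DiffM n N r where
  toFun := ρ s
  invFun := ρ (-s)
  left_inv x := act_neg hρ s x
  right_inv x := act_neg' hρ s x
  contMDiff_toFun := (hρ.1.comp (contMDiff_const.prodMk contMDiff_id)).of_le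
    (WithTop.coe_le_coe.2 le_top)
  contMDiff_invFun := (hρ.1.comp (contMDiff_const.prodMk contMDiff_id)).of_le
    (WithTop.coe_le_coe.2 le_top)

theorem dif_apply (r : ℕ∞) (s : Fin k → ℝ) (x : N) : dif hρ r s x = ρ s x := rfl

theorem act_smooth (s : Fin k → ℝ) : ContMDiff (𝓡 n) (𝓡 n) ∞ (ρ s) :=
  hρ.1.comp (contMDiff_const.prodMk contMDiff_id)

theorem crit_act {h : N → ℝ} (hh : ContMDiff (𝓡 n) 𝓘(ℝ, ℝ) ∞ h) (hi : ∀ t x, h (ρ t x) = h x)
    (s : Fin k → ℝ) {x : N} (hx : IsCrit n h (ρ s x)) : IsCrit n h x := by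
  have e : h = h ∘ ρ s := by
    funext y
    exact (hi s y).symm
  unfold IsCrit at hx ⊢
  rw [e, mfderiv_comp x (hh.contMDiffAt.mdifferentiableAt (by simp))
    ((act_smooth hρ s).contMDiffAt.mdifferentiableAt (by simp)), hx]
  exact ContinuousLinearMap.zero_comp _

theorem crit_act' {h : N → ℝ} (hh : ContMDiff (𝓡 n) 𝓘(ℝ, ℝ) ∞ h) (hi : ∀ t x, h (ρ t x) = h x)
    (s : Fin k → ℝ) {x : N} (hx : IsCrit n h x) : IsCrit n h (ρ s x) := by
  apply crit_act hρ hh hi (-s)
  rw [act_neg hρ]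
  exact hx

end approx

theorem rec_step {f : N → N} (hf : Continuous f) {x : N} (hx : x ∈ Rec f) : f x ∈ Rec f := by
  intro W hW
  obtain ⟨k, hk, hkW⟩ := hx (f ⁻¹' W) (hf.continuousAt.preimage_mem_nhds hW)
  refine ⟨k, hk, ?_⟩
  rw [← Function.iterate_succ_apply, Function.iterate_succ_apply']
  exact hkW

theorem rec_const {f : N → N} (hf : Continuous f) {h : N → ℝ} (hc : Continuous h)
    (hm : ∀ x, h x ≤ h (f x)) (j : ℕ) : ∀ {x : N}, x ∈ Rec f → h (f^[j] x) = h x := by
  have hmono : ∀ x, Monotone fun k => h (f^[k] x) := by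
    intro x
    apply monotone_nat_of_le_succ
    intro k
    rw [Function.iterate_succ_apply']
    exact hm _
  have h1 : ∀ x ∈ Rec f, h (f x) = h x := by
    intro x hx
    refine le_antisymm ?_ (hm x)
    by_contra hlt
    push Not at hlt
    obtain ⟨k, hk, hkW⟩ := hx {y | h y < h (f x)} ((isOpen_lt hc continuous_const).mem_nhds hlt)
    have h2 := hmono x hk
    simp only [Function.iterate_one] at h2
    exact absurd hkW (not_lt.2 h2)
  induction j with
  | zero => intro x _; rfl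
  | succ j ih =>
    intro x hx
    rw [Function.iterate_succ_apply, ih (rec_step hf hx), h1 x hx]

variable [T2Space N] [CompactSpace N] {r : ℕ∞}

/-- **Approximation.** -/
theorem near (hr : 1 ≤ r) {G : DiffM n N r} (hG : TorusMonotone (V n) G) (U : Set (DiffM n N r))
    (hU : IsOpen[strongTop n N r] U) (hGU : G ∈ U) : ∃ G' ∈ U, NoDecrease n N r G' := by
  obtain ⟨h, hh, hm, k, ρ, hρ, hi, P, t, ⟨m, hm1, hPm⟩, hPρ, hcount⟩ := hG
  rcases isEmpty_or_nonempty N with hN | ⟨⟨z⟩⟩
  · exact ⟨G, hGU, h, hh, hm, countable_empty.mono fun x _ => hN.elim x⟩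
  have hfam : IsFam n N r (fun s : Fin k → ℝ => G.trans (dif hρ r s)) := by
    intro y
    have h1 : ContMDiff (𝓘(ℝ, Fin k → ℝ).prod (𝓡 n)) (𝓘(ℝ, Fin k → ℝ).prod (𝓡 n)) r
        (fun q : (Fin k → ℝ) × N => (q.1, G q.2)) :=
      contMDiff_fst.prodMk (G.contMDiff.comp contMDiff_snd)
    exact ((hρ.1.of_le (WithTop.coe_le_coe.2 le_top)).comp h1).contMDiffAt
  have h0 : G.trans (dif hρ r 0) = G := by
    ext y
    show ρ 0 (G y) = G y
    exact hρ.2.1 _
  obtain ⟨κ, hκ, hmem⟩ := Pool.Agent.TH80.CLX.fam_mem r hr _ hfam z U hU (by rw [h0]; exact hGU)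
  obtain ⟨s, q, hs, hq, hker⟩ := exists_rational hρ t hκ
  refine ⟨G.trans (dif hρ r s), hmem s hs, h, hh, fun x => ?_, ?_⟩
  · show h x ≤ h (ρ s (G x))
    rw [hi]
    exact hm x
  set G' : DiffM n N r := G.trans (dif hρ r s) with hG'
  have hG'x : ∀ x, G' x = ρ s (G x) := fun x => rfl
  set B : Set N := {x | (Crit (V n) h x ∧ Crit (V n) h (G x) ∧ h (G x) = h x) ∧
    G x ≠ (P ∘ ρ t) x} with hB
  -- the exceptional points
  refine Set.Countable.mono (s₂ := ⋃ j : ℕ, (G'^[j]) ⁻¹' B) ?_ ?_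
  swap
  · refine countable_iUnion fun j => ?_
    refine hcount.preimage_of_injOn ?_
    exact (G'.injective.iterate j).injOn
  rintro x ⟨⟨hxc, hxr⟩, hxp⟩
  by_contra hnot
  apply hxp
  simp only [mem_iUnion, mem_preimage, not_exists] at hnot
  have hconst : ∀ j, h (G'^[j] x) = h x := fun j => rec_const G'.continuous hh.continuous
    (fun y => by rw [hG'x, hi]; exact hm y) j hxr
  -- one step
  have hstep : ∀ j, G'^[j + 1] x = P (ρ (t + s) (G'^[j] x)) := by
    intro j
    rw [Function.iterate_succ_apply', hG'x]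
    have c1 : IsCrit n h (G'^[j] x) := (hxc j).1
    have c2 : IsCrit n h (G (G'^[j] x)) := by
      have := (hxc (j + 1)).1
      rw [Function.iterate_succ_apply', hG'x] at this
      exact crit_act hρ hh hi s this
    have c3 : h (G (G'^[j] x)) = h (G'^[j] x) := by
      have := hconst (j + 1)
      rw [Function.iterate_succ_apply', hG'x, hi] at this
      rw [this, hconst]
    have c4 : G (G'^[j] x) = P (ρ t (G'^[j] x)) := by
      by_contra hne
      exact hnot j ⟨⟨c1, c2, c3⟩, hne⟩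
    rw [c4, ← hPρ, ← hρ.2.2.1, add_comm]
  have hall : ∀ j : ℕ, G'^[j] x = P^[j] (ρ ((j : ℝ) • (t + s)) x) := by
    intro j
    induction j with
    | zero => simp [hρ.2.1]
    | succ j ih =>
      have hPj : ∀ (i : ℕ) (u : Fin k → ℝ) (y : N), P^[i] (ρ u y) = ρ u (P^[i] y) := by
        intro i
        induction i with
        | zero => intro u y; rfl
        | succ i ih2 =>
          intro u y
          rw [Function.iterate_succ_apply, Function.iterate_succ_apply, hPρ, ih2]
      rw [hstep, ih, ← hPj, ← hρ.2.2.1, ← Function.iterate_succ_apply' P]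
      congr 3
      push_cast
      rw [add_smul, one_smul, add_comm]
  refine ⟨m * q, Nat.mul_pos hm1 hq, ?_⟩
  rw [hall]
  have e1 : P^[m * q] = id := by
    rw [Function.iterate_mul, hPm]
    exact Function.iterate_id q
  have e2 : ((m * q : ℕ) : ℝ) • (t + s) ∈ ker hρ := by
    have := AddSubgroup.nsmul_mem (ker hρ) hker m
    rw [← Nat.cast_smul_eq_nsmul ℝ, smul_smul] at this
    push_cast
    exact this
  rw [e1]
  exact e2 x

theorem stable (hr : 1 ≤ r) {F : DiffM n N r} (hF : OmegaStable n N r F)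
    (hcl : ∀ U : Set (DiffM n N r), IsOpen[strongTop n N r] U → F ∈ U →
      ∃ G ∈ U, TorusMonotone (V n) G) :
    FiniteNoCycle F ∧ ∀ p ∈ Omega F, IsHyperbolicPer n F p := by
  refine closure_main hr hF fun U hU hFU => ?_
  obtain ⟨G, hGU, hG⟩ := hcl U hU hFU
  exact near hr hG U hU hGU

/-- time maps of `Y + Z` -/
theorem flow_monotone {G : DiffM n N r} (hG : TorusFlow (V n) G) : TorusMonotone (V n) G := by
  obtain ⟨h, hh, k, ρ, hρ, hi, Y, hY, Z, hZ, hYn, hY0, ⟨t, hZt⟩, φ, T, hφ, hT⟩ := hG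
  have hYs : SmF (E := V n) Y := hY
  have hZs : SmF (E := V n) Z := hZ
  have hYZ : SmF (E := V n) (Y + Z) := SmF.add hYs hZs
  -- `h` does not decrease
  have hdZ : ∀ x, dForm 𝓘(ℝ, V n) h x (Z x) = 0 := by
    intro x
    have h1 := hasDerivAt_along (hZt x 0) hh
    have h2 : HasDerivAt (fun u : ℝ => h (ρ (u • t) x)) 0 0 := by
      have : (fun u : ℝ => h (ρ (u • t) x)) = fun _ => h x := funext fun u => hi _ _
      rw [this]
      exact hasDerivAt_const _ _
    have h3 := h1.unique h2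
    have e : ρ ((0 : ℝ) • t) x = x := by rw [zero_smul, hρ.2.1]
    have h4 : dForm 𝓘(ℝ, V n) h (ρ ((0 : ℝ) • t) x) (Z (ρ ((0 : ℝ) • t) x)) = 0 := h3
    rw [e] at h4
    exact h4
  have hmono : ∀ x, Monotone fun u => h (φ u x) := by
    refine fun x => mono_along (V := Y + Z) hφ hh (fun y => ?_) x
    have e : dForm 𝓘(ℝ, V n) h y ((Y + Z) y) = dForm 𝓘(ℝ, V n) h y (Y y) +
        dForm 𝓘(ℝ, V n) h y (Z y) := map_add _ _ _
    rw [e, hdZ, add_zero]
    exact hYn y
  -- on the critical set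
  have hcrit : ∀ x, IsCrit n h x → ∀ u, φ u x = ρ (u • t) x := by
    intro x hx u
    have h1 : IsMIntegralCurve (I := 𝓡 n) (fun u : ℝ => ρ (u • t) x) (Y + Z) := by
      intro u
      have h2 := hZt x u
      have h3 : Y (ρ (u • t) x) = 0 := hY0 _ (crit_act' hρ hh hi _ hx)
      have h4 : (Y + Z) (ρ (u • t) x) = Z (ρ (u • t) x) := by
        show Y (ρ (u • t) x) + Z (ρ (u • t) x) = Z (ρ (u • t) x)
        rw [h3, zero_add]
      rw [h4]
      exact h2
    have h5 := flow_unique hYZ hφ h1 u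
    simp only [zero_smul, hρ.2.1] at h5
    exact h5.symm
  rcases le_total 0 T with hT0 | hT0
  · refine ⟨h, hh, fun x => ?_, k, ρ, hρ, hi, id, T • t, ⟨1, le_rfl, rfl⟩, fun _ _ => rfl, ?_⟩
    · rw [hT]
      have := hmono x hT0
      simpa using this
    · refine countable_empty.mono ?_
      rintro x ⟨⟨hx, -⟩, hne⟩
      exact hne (by rw [hT]; exact hcrit x hx T)
  · have hneg : ∀ x, IsCrit n (fun y => - h y) x → IsCrit n h x := by
      intro x hx
      unfold IsCrit at hx ⊢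
      have e : (fun y => - h y) = -h := rfl
      rw [e, mfderiv_neg] at hx
      exact neg_eq_zero.1 hx
    refine ⟨fun y => - h y, hh.neg, fun x => ?_, k, ρ, hρ, fun s x => by simp only [hi], id, T • t,
      ⟨1, le_rfl, rfl⟩, fun _ _ => rfl, ?_⟩
    · rw [hT]
      have := hmono x hT0
      simp only [Flow.map_zero_apply] at this
      exact neg_le_neg this
    · refine countable_empty.mono ?_
      rintro x ⟨⟨hx, -⟩, hne⟩
      exact hne (by rw [hT]; exact hcrit x (hneg x hx) T)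

end Pool.Agent.X84.Tor
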